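import Pool.Agent.Helper7.AFT.Base
import Pool.Agent.Helper55.AFT.T1

/-!
AFT, module T2: the contraction `Gam` does not depend on the dual bases, and takes rational values
(up to a power of `2 π i`) on the Betti structures and algebraic values on the de Rham structures.
-/

namespace Pool.Agent.Helper7.AFT

open Module Pool.Agent.GPC Pool.Agent.Helper7 Pool.Agent.Helper39.AF

/-- the contraction of a function of the form `x, x' ↦ ∑ᵢ F(x) ...` -/
private lemma isBil_sum {V : Type*} [AddCommGroup V] [Module ℂ V] {ι : Type*} (s : Finset ι)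
    (f : ι → V → V → ℂ) (h : ∀ i, IsBil (f i)) : IsBil (fun x y => ∑ i ∈ s, f i x y) where
  add_left := fun u u' v => by
    rw [← Finset.sum_add_distrib]
    exact Finset.sum_congr rfl fun i _ => (h i).add_left u u' v
  smul_left := fun c u v => by
    rw [Finset.mul_sum]
    exact Finset.sum_congr rfl fun i _ => (h i).smul_left c u v
  add_right := fun u v v' => by
    rw [← Finset.sum_add_distrib]
    exact Finset.sum_congr rfl fun i _ => (h i).add_right u v v'
  smul_right := fun c u v => by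
    rw [Finset.mul_sum]
    exact Finset.sum_congr rfl fun i _ => (h i).smul_right c u v

/-- the summand of `Gam` -/
private noncomputable def sm {X Y E : AbVar} (T : Ten X Y E)
    (β : X.H1 → X.H1 → X.H1 → X.H1 → ℂ) (w : Y.H1) (l : E.H1) (w' : Y.H1) (l' : E.H1)
    (x y z t x' y' z' t' : X.H1) : ℂ := T x y w l * T z t w' l' * β x' y' z' t'

private lemma sm1 {X Y E : AbVar} (T : Ten X Y E) {β : X.H1 → X.H1 → X.H1 → X.H1 → ℂ}
    (hβ : FourLin β) (w : Y.H1) (l : E.H1) (w' : Y.H1) (l' : E.H1) (y z t y' z' t' : X.H1) :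
    IsBil (fun x x' => sm T β w l w' l' x y z t x' y' z' t') where
  add_left := fun u u' v => by
    simp only [sm, map_add, LinearMap.add_apply]; ring
  smul_left := fun c u v => by
    simp only [sm, map_smul, LinearMap.smul_apply, smul_eq_mul]; ring
  add_right := fun u v v' => by
    simp only [sm, hβ.add1]; ring
  smul_right := fun c u v => by
    simp only [sm, hβ.smul1]; ring

private lemma sm2 {X Y E : AbVar} (T : Ten X Y E) {β : X.H1 → X.H1 → X.H1 → X.H1 → ℂ}
    (hβ : FourLin β) (w : Y.H1) (l : E.H1) (w' : Y.H1) (l' : E.H1) (x z t x' z' t' : X.H1) :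
    IsBil (fun y y' => sm T β w l w' l' x y z t x' y' z' t') where
  add_left := fun u u' v => by
    simp only [sm, map_add, LinearMap.add_apply]; ring
  smul_left := fun c u v => by
    simp only [sm, map_smul, LinearMap.smul_apply, smul_eq_mul]; ring
  add_right := fun u v v' => by
    simp only [sm, hβ.add2]; ring
  smul_right := fun c u v => by
    simp only [sm, hβ.smul2]; ring

private lemma sm3 {X Y E : AbVar} (T : Ten X Y E) {β : X.H1 → X.H1 → X.H1 → X.H1 → ℂ}
    (hβ : FourLin β) (w : Y.H1) (l : E.H1) (w' : Y.H1) (l' : E.H1) (x y t x' y' t' : X.H1) :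
    IsBil (fun z z' => sm T β w l w' l' x y z t x' y' z' t') where
  add_left := fun u u' v => by
    simp only [sm, map_add, LinearMap.add_apply]; ring
  smul_left := fun c u v => by
    simp only [sm, map_smul, LinearMap.smul_apply, smul_eq_mul]; ring
  add_right := fun u v v' => by
    simp only [sm, hβ.add3]; ring
  smul_right := fun c u v => by
    simp only [sm, hβ.smul3]; ring

private lemma sm4 {X Y E : AbVar} (T : Ten X Y E) {β : X.H1 → X.H1 → X.H1 → X.H1 → ℂ}
    (hβ : FourLin β) (w : Y.H1) (l : E.H1) (w' : Y.H1) (l' : E.H1) (x y z x' y' z' : X.H1) :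
    IsBil (fun t t' => sm T β w l w' l' x y z t x' y' z' t') where
  add_left := fun u u' v => by
    simp only [sm, map_add, LinearMap.add_apply]; ring
  smul_left := fun c u v => by
    simp only [sm, map_smul, LinearMap.smul_apply, smul_eq_mul]; ring
  add_right := fun u v v' => by
    simp only [sm, hβ.add4]; ring
  smul_right := fun c u v => by
    simp only [sm, hβ.smul4]; ring

theorem Gam_indep {X Y E : AbVar} (T : Ten X Y E) {β : X.H1 → X.H1 → X.H1 → X.H1 → ℂ}
    (hβ : FourLin β) {ι κ : Type} [Fintype ι] [Fintype κ] [DecidableEq ι] [DecidableEq κ]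
    (e : Basis ι ℂ X.H1) (e' : ι → X.H1) (he : IsDual X e e') (f : Basis κ ℂ X.H1)
    (f' : κ → X.H1) (hf : IsDual X f f') (w : Y.H1) (l : E.H1) (w' : Y.H1) (l' : E.H1) :
    Gam T β e e' w l w' l' = Gam T β f f' w l w' l' := by
  have h1 : ∑ a, ∑ b, ∑ c, ∑ d,
        sm T β w l w' l' (e a) (e b) (e c) (e d) (e' a) (e' b) (e' c) (e' d) =
      ∑ a, ∑ b, ∑ c, ∑ d,
        sm T β w l w' l' (f a) (e b) (e c) (e d) (f' a) (e' b) (e' c) (e' d) :=
    sum_dual X e e' he f f' hf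
      (fun x x' => ∑ b, ∑ c, ∑ d,
        sm T β w l w' l' x (e b) (e c) (e d) x' (e' b) (e' c) (e' d))
      (isBil_sum _ _ fun b => isBil_sum _ _ fun c => isBil_sum _ _ fun d =>
        sm1 T hβ w l w' l' _ _ _ _ _ _)
  have h2 : ∀ a : κ, ∑ b, ∑ c, ∑ d,
        sm T β w l w' l' (f a) (e b) (e c) (e d) (f' a) (e' b) (e' c) (e' d) =
      ∑ b, ∑ c, ∑ d,
        sm T β w l w' l' (f a) (f b) (e c) (e d) (f' a) (f' b) (e' c) (e' d) := fun a =>
    sum_dual X e e' he f f' hf
      (fun x x' => ∑ c, ∑ d,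
        sm T β w l w' l' (f a) x (e c) (e d) (f' a) x' (e' c) (e' d))
      (isBil_sum _ _ fun c => isBil_sum _ _ fun d => sm2 T hβ w l w' l' _ _ _ _ _ _)
  have h3 : ∀ a b : κ, ∑ c, ∑ d,
        sm T β w l w' l' (f a) (f b) (e c) (e d) (f' a) (f' b) (e' c) (e' d) =
      ∑ c, ∑ d,
        sm T β w l w' l' (f a) (f b) (f c) (e d) (f' a) (f' b) (f' c) (e' d) := fun a b =>
    sum_dual X e e' he f f' hf
      (fun x x' => ∑ d,
        sm T β w l w' l' (f a) (f b) x (e d) (f' a) (f' b) x' (e' d))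
      (isBil_sum _ _ fun d => sm3 T hβ w l w' l' _ _ _ _ _ _)
  have h4 : ∀ a b c : κ, ∑ d,
        sm T β w l w' l' (f a) (f b) (f c) (e d) (f' a) (f' b) (f' c) (e' d) =
      ∑ d,
        sm T β w l w' l' (f a) (f b) (f c) (f d) (f' a) (f' b) (f' c) (f' d) := fun a b c =>
    sum_dual X e e' he f f' hf
      (fun x x' =>
        sm T β w l w' l' (f a) (f b) (f c) x (f' a) (f' b) (f' c) x')
      (sm4 T hβ w l w' l' _ _ _ _ _ _)
  change ∑ a, ∑ b, ∑ c, ∑ d,
        sm T β w l w' l' (e a) (e b) (e c) (e d) (e' a) (e' b) (e' c) (e' d) =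
      ∑ a, ∑ b, ∑ c, ∑ d,
        sm T β w l w' l' (f a) (f b) (f c) (f d) (f' a) (f' b) (f' c) (f' d)
  rw [h1]
  refine Finset.sum_congr rfl fun a _ => ?_
  rw [h2 a]
  refine Finset.sum_congr rfl fun b _ => ?_
  rw [h3 a b]
  exact Finset.sum_congr rfl fun c _ => h4 a b c

/-- the subset of the values we want is closed under sums -/
private lemma rat_sum {ι : Type*} (s : Finset ι) (f : ι → ℂ) (x : ℂ)
    (h : ∀ i ∈ s, ∃ q : ℚ, f i = x * q) : ∃ q : ℚ, ∑ i ∈ s, f i = x * q := by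
  classical
  induction s using Finset.induction_on with
  | empty => exact ⟨0, by simp⟩
  | insert a s ha ih =>
    obtain ⟨q, hq⟩ := ih fun i hi => h i (Finset.mem_insert_of_mem hi)
    obtain ⟨r, hr⟩ := h a (Finset.mem_insert_self a s)
    refine ⟨r + q, ?_⟩
    rw [Finset.sum_insert ha, hq, hr]
    push_cast
    ring

private lemma alg_sum {ι : Type*} (s : Finset ι) (f : ι → ℂ)
    (h : ∀ i ∈ s, IsAlgebraic ℚ (f i)) : IsAlgebraic ℚ (∑ i ∈ s, f i) := by
  classical
  induction s using Finset.induction_on with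
  | empty => simpa using (isAlgebraic_zero : IsAlgebraic ℚ (0 : ℂ))
  | insert a s ha ih =>
    rw [Finset.sum_insert ha]
    exact (h a (Finset.mem_insert_self a s)).add
      (ih fun i hi => h i (Finset.mem_insert_of_mem hi))

theorem Gam_betti {X Y E : AbVar} (T : Ten X Y E) {β : X.H1 → X.H1 → X.H1 → X.H1 → ℂ}
    (hβ : FourLin β)
    (hT : ∀ u v w l, X.IsBetti u → X.IsBetti v → Y.IsBetti w → E.IsBetti l →
      ∃ c : ℚ, T u v w l = (2 * Real.pi * Complex.I) ^ 2 * c)
    (hβ' : ∀ a b c e, X.IsBetti a → X.IsBetti b → X.IsBetti c → X.IsBetti e →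
      ∃ q : ℚ, β a b c e = (2 * Real.pi * Complex.I) ^ 2 * q)
    {ι : Type} [Fintype ι] [DecidableEq ι]
    (e : Basis ι ℂ X.H1) (e' : ι → X.H1) (he : IsDual X e e') (w : Y.H1) (l : E.H1) (w' : Y.H1)
    (l' : E.H1) (hw : Y.IsBetti w) (hl : E.IsBetti l) (hw' : Y.IsBetti w') (hl' : E.IsBetti l') :
    ∃ q : ℚ, Gam T β e e' w l w' l' = (2 * Real.pi * Complex.I) ^ 2 * q := by
  obtain ⟨κ, _, _, f, f', hf, hfB, hfB'⟩ := exists_betti_dual X
  rw [Gam_indep T hβ e e' he f f' hf]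
  have hpi : (2 * Real.pi * Complex.I : ℂ) ≠ 0 := by
    simp [Real.pi_ne_zero]
  unfold Gam
  refine rat_sum _ _ _ fun a _ => rat_sum _ _ _ fun b _ => rat_sum _ _ _ fun c _ =>
    rat_sum _ _ _ fun d _ => ?_
  obtain ⟨q1, hq1⟩ := hT (f a) (f b) w l (hfB a) (hfB b) hw hl
  obtain ⟨q2, hq2⟩ := hT (f c) (f d) w' l' (hfB c) (hfB d) hw' hl'
  obtain ⟨q3, hq3⟩ := hβ' _ _ _ _ (hfB' a) (hfB' b) (hfB' c) (hfB' d)
  rw [hβ.smul1, hβ.smul2, hβ.smul3, hβ.smul4] at hq3
  refine ⟨q1 * q2 * q3, ?_⟩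
  generalize (2 * Real.pi * Complex.I : ℂ) = p at hpi hq1 hq2 hq3 ⊢
  have h4 : p ^ 2 * β (f' a) (f' b) (f' c) (f' d) = q3 := by
    have h5 : p ^ 2 * (p ^ 2 * β (f' a) (f' b) (f' c) (f' d)) = p ^ 2 * q3 := by
      rw [← hq3]; ring
    exact mul_left_cancel₀ (pow_ne_zero 2 hpi) h5
  rw [hq1, hq2]
  push_cast
  rw [← h4]
  ring

theorem Gam_deRham {X Y E : AbVar} (T : Ten X Y E) {β : X.H1 → X.H1 → X.H1 → X.H1 → ℂ}
    (hβ : FourLin β)
    (hT : ∀ u v w l, X.IsDeRham u → X.IsDeRham v → Y.IsDeRham w → E.IsDeRham l →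
      IsAlgebraic ℚ (T u v w l))
    (hβ' : ∀ a b c e, X.IsDeRham a → X.IsDeRham b → X.IsDeRham c → X.IsDeRham e →
      IsAlgebraic ℚ (β a b c e))
    {ι : Type} [Fintype ι] [DecidableEq ι]
    (e : Basis ι ℂ X.H1) (e' : ι → X.H1) (he : IsDual X e e') (w : Y.H1) (l : E.H1) (w' : Y.H1)
    (l' : E.H1) (hw : Y.IsDeRham w) (hl : E.IsDeRham l) (hw' : Y.IsDeRham w')
    (hl' : E.IsDeRham l') : IsAlgebraic ℚ (Gam T β e e' w l w' l') := by
  obtain ⟨κ, _, _, f, f', hf, hfB, hfB'⟩ := exists_deRham_dual X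
  rw [Gam_indep T hβ e e' he f f' hf]
  unfold Gam
  exact alg_sum _ _ fun a _ => alg_sum _ _ fun b _ => alg_sum _ _ fun c _ =>
    alg_sum _ _ fun d _ =>
      ((hT _ _ _ _ (hfB a) (hfB b) hw hl).mul (hT _ _ _ _ (hfB c) (hfB d) hw' hl')).mul
        (hβ' _ _ _ _ (hfB' a) (hfB' b) (hfB' c) (hfB' d))

end Pool.Agent.Helper7.AFT
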